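import Pool.Agent.Helper13.RS.St

/-!
# Project RS, module PA: two different numbers have few common residues modulo large primes
-/

set_option autoImplicit false

namespace Pool.Agent.Helper98.RS

open Pool.Agent.Helper13.RS Finset

theorem pa_dvd {s n n' : ℕ} (h : n % s = n' % s) : s ∣ ((n : ℤ) - n').natAbs := by
  have h1 : (s : ℤ) ∣ (n : ℤ) - n' := by
    have h2 : n' ≡ n [MOD s] := h.symm
    exact (Nat.modEq_iff_dvd).1 h2
  exact Int.natCast_dvd.1 h1

theorem pa_card {R : Finset ℕ} {y n n' : ℕ} (hR : ∀ s ∈ R, s.Prime) (hn : n ≤ y) (hn' : n' ≤ y)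
    (hne : n ≠ n') : ((R.filter (fun s => n % s = n' % s)).card : ℝ) ≤ 2 * Real.log y := by
  set S := R.filter (fun s => n % s = n' % s) with hS
  set D := ((n : ℤ) - n').natAbs with hD
  have hD0 : 0 < D := by
    rw [hD, Int.natAbs_pos]
    intro h
    apply hne
    omega
  have hDy : D ≤ y := by
    rw [hD]
    omega
  have hprod : ∏ s ∈ S, s ∣ D := by
    apply Finset.prod_primes_dvd
    · intro s hs
      rw [hS, mem_filter] at hs
      exact (hR s hs.1).prime
    · intro s hs
      rw [hS, mem_filter] at hs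
      exact pa_dvd hs.2
  have h2 : 2 ^ S.card ≤ ∏ s ∈ S, s := by
    rw [← Finset.prod_const]
    apply Finset.prod_le_prod' 
    intro s hs
    rw [hS, mem_filter] at hs
    exact (hR s hs.1).two_le
  have h3 : 2 ^ S.card ≤ y := h2.trans ((Nat.le_of_dvd hD0 hprod).trans hDy)
  have h4 : (2 : ℝ) ^ S.card ≤ y := by exact_mod_cast h3
  have h5 := Real.log_le_log (by positivity) h4
  rw [Real.log_pow] at h5
  have h6 : (1 : ℝ) / 2 ≤ Real.log 2 := by linarith [Real.log_two_gt_d9]
  have h7 : (0 : ℝ) ≤ (S.card : ℝ) := Nat.cast_nonneg _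
  nlinarith

theorem hPA : StPA := by
  intro R w y n n' hw hR hn hn' hne
  have hc := pa_card (fun s hs => (hR s hs).1) hn hn' hne
  set S := R.filter (fun s => n % s = n' % s) with hS
  have hw0 : 0 < w := by linarith
  have h1 : ∀ s ∈ S, (((s : ℝ) - 1) / ((s : ℝ) - 2)) ≤ Real.exp (2 / w) := by
    intro s hs
    rw [hS, mem_filter] at hs
    have hsw := (hR s hs.1).2
    have h2 : 0 < (s : ℝ) - 2 := by linarith
    have e1 : ((s : ℝ) - 1) / ((s : ℝ) - 2) = 1 / ((s : ℝ) - 2) + 1 := by
      field_simp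
      ring
    rw [e1]
    have h3 : 1 / ((s : ℝ) - 2) ≤ 2 / w := by
      rw [div_le_div_iff₀ h2 hw0]
      linarith
    have h4 := Real.add_one_le_exp (2 / w)
    linarith
  have h0 : ∀ s ∈ S, 0 ≤ (((s : ℝ) - 1) / ((s : ℝ) - 2)) := by
    intro s hs
    rw [hS, mem_filter] at hs
    have hsw := (hR s hs.1).2
    apply div_nonneg <;> linarith
  calc ∏ s ∈ S, (((s : ℝ) - 1) / ((s : ℝ) - 2)) ≤ ∏ s ∈ S, Real.exp (2 / w) :=
        Finset.prod_le_prod h0 h1
    _ = Real.exp (S.card * (2 / w)) := by rw [Finset.prod_const, ← Real.exp_nat_mul]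
    _ ≤ Real.exp (4 * Real.log y / w) := by
        apply Real.exp_le_exp.2
        rw [mul_div_assoc', div_le_div_iff_of_pos_right hw0]
        linarith

end Pool.Agent.Helper98.RS
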