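import Pool.Agent.Helper73.RS.St

set_option autoImplicit false

namespace Pool.Agent.Helper98.RS

open Pool.Agent.Helper73.RS
open Filter Topology

/-- Almost sure invariance of the colouring under multiplication by squares. -/
theorem holds_KAP : Pool.Agent.Helper73.RS.StKAP := by
  intro m hm hD c hc H k hk
  have hM : IsMean m := hm.mean
  have hprod : ∀ x y : ℕ, c x * c y = 1 ∨ c x * c y = -1 := by
    intro x y
    rcases hc x with h | h <;> rcases hc y with h' | h' <;> simp [h, h']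
  obtain ⟨Γ, hΓ⟩ : ∃ Γ : ℕ → ℕ → ℕ → ℝ, ∀ n z T, Γ n z T = 1 + c ((n + z) * T) * c (n * n * z * T) :=
    ⟨_, fun _ _ _ => rfl⟩
  have hΓ0 : ∀ n z T, 0 ≤ Γ n z T := by
    intro n z T
    rw [hΓ]
    rcases hprod ((n + z) * T) (n * n * z * T) with h | h <;> rw [h] <;> norm_num
  have hΓ2 : ∀ n z T, Γ n z T ≤ 2 := by
    intro n z T
    rw [hΓ]
    rcases hprod ((n + z) * T) (n * n * z * T) with h | h <;> rw [h] <;> norm_num
  have hΓb : ∀ n z, Bd (Γ n z) := fun n z => Bd.of_le_le (hΓ0 n z) (hΓ2 n z)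
  have hΦ0 : ∀ n z, 0 ≤ m (Γ n z) := fun n z => hM.ge_of_ge (hΓb n z) (hΓ0 n z)
  have hΦ2 : ∀ n z, m (Γ n z) ≤ 2 := fun n z => hM.le_of_le (hΓb n z) (hΓ2 n z)
  have hΦb : ∀ n, Bd (fun z => m (Γ n z)) := fun n => Bd.of_le_le (hΦ0 n) (hΦ2 n)
  have hΨ0 : ∀ n, 0 ≤ m (fun z => m (Γ n z)) := fun n => hM.ge_of_ge (hΦb n) (hΦ0 n)
  have hΨ2 : ∀ n, m (fun z => m (Γ n z)) ≤ 2 := fun n => hM.le_of_le (hΦb n) (hΦ2 n)
  have hΨb : Bd (fun n => m (fun z => m (Γ n z))) := Bd.of_le_le hΨ0 hΨ2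
  have H' : m (fun n => m (fun z => m (Γ n z))) ≤ 0 := by
    have e : (fun n => m (fun z => m (Γ n z))) =
        fun n => m (fun z => m (fun T => 1 + c ((n + z) * T) * c (n * n * z * T))) := by
      funext n
      congr 1
      funext z
      congr 1
      funext T
      exact hΓ n z T
    rw [e]
    exact H
  have hgb : Bd (fun T => 1 - c (k * k * T) * c T) := by
    refine Bd.of_le_le (A := 0) (B := 2) (fun T => ?_) (fun T => ?_) <;>
      rcases hprod (k * k * T) T with h | h <;> rw [h] <;> norm_num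
  -- the innermost comparison
  have h1 : ∀ n, 1 ≤ n → ∀ z, 1 ≤ z → m (fun T => 1 - c (k * k * T) * c T) ≤
      m (Γ (k * n) (k * z)) + m (Γ n z) := by
    intro n hn z hz
    have hpos : 1 ≤ k * n * n * z := by
      have := Nat.mul_le_mul (Nat.mul_le_mul (Nat.mul_le_mul hk hn) hn) hz
      simpa using this
    rw [← hD (k * n * n * z) hpos _ hgb, ← hD k hk (Γ n z) (hΓb n z),
      ← hM.add _ _ (hΓb _ _) ((hΓb n z).comp fun x => k * x)]
    refine hM.mono (hgb.comp fun x => k * n * n * z * x) ((hΓb _ _).add ((hΓb n z).comp fun x => k * x))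
      fun T => ?_
    rw [hΓ, hΓ]
    have e1 : (k * n + k * z) * T = (n + z) * (k * T) := by ring
    have e2 : k * n * (k * n) * (k * z) * T = k * k * (k * n * n * z * T) := by ring
    have e3 : n * n * z * (k * T) = k * n * n * z * T := by ring
    rw [e1, e2, e3]
    rcases hc ((n + z) * (k * T)) with ha | ha <;> rcases hc (k * k * (k * n * n * z * T)) with hb | hb <;>
      rcases hc (k * n * n * z * T) with hd | hd <;> rw [ha, hb, hd] <;> norm_num
  have h2 : ∀ n, 1 ≤ n → m (fun T => 1 - c (k * k * T) * c T) ≤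
      m (fun z => m (Γ (k * n) z)) + m (fun z => m (Γ n z)) := by
    intro n hn
    have h3 := hm.mono_pos (Bd.const (m (fun T => 1 - c (k * k * T) * c T)))
      (((hΦb (k * n)).comp fun x => k * x).add (hΦb n)) (h1 n hn)
    rw [hM.const, hM.add _ _ ((hΦb (k * n)).comp fun x => k * x) (hΦb n), hD k hk _ (hΦb (k * n))] at h3
    exact h3
  have h4 := hm.mono_pos (Bd.const (m (fun T => 1 - c (k * k * T) * c T)))
    ((hΨb.comp fun x => k * x).add hΨb) h2
  rw [hM.const, hM.add _ _ (hΨb.comp fun x => k * x) hΨb, hD k hk _ hΨb] at h4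
  linarith

end Pool.Agent.Helper98.RS
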